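import Mathlib
import Pool.Agent.H.MP_1020fe_co.Det

set_option autoImplicit false

namespace Pool.Agent.Results.MP_1020fe_co.Exists

open Polynomial Pool.Agent.H.MP_1020fe_co

/-- A zero-nonzero pattern is a Boolean matrix (`true` means nonzero); `A` is a real matrix with
that pattern. -/
def Realizes {n : ℕ} (P : Matrix (Fin n) (Fin n) Bool) (A : Matrix (Fin n) (Fin n) ℝ) : Prop :=
  ∀ i j, A i j ≠ 0 ↔ P i j = true

/-- Spectrally arbitrary: every monic real polynomial of degree `n` is the characteristic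
polynomial of a realization. -/
def SAP {n : ℕ} (P : Matrix (Fin n) (Fin n) Bool) : Prop :=
  ∀ p : ℝ[X], p.Monic → p.natDegree = n → ∃ A, Realizes P A ∧ A.charpoly = p

/-- The direct sum of two patterns: block diagonal, all other entries zero. -/
def dsum {m n : ℕ} (P : Matrix (Fin m) (Fin m) Bool) (Q : Matrix (Fin n) (Fin n) Bool) :
    Matrix (Fin (m + n)) (Fin (m + n)) Bool :=
  Matrix.reindex finSumFinEquiv finSumFinEquiv
    (Matrix.fromBlocks P (fun _ _ => false) (fun _ _ => false) Q)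

/-- The first pattern, of order 4. -/
def P4 : Matrix (Fin 4) (Fin 4) Bool :=
  !![true, true, false, true;
     true, true, false, true;
     true, true, false, false;
     false, false, true, false]

/-- The second pattern, of order 8. -/
def P8 : Matrix (Fin 8) (Fin 8) Bool :=
  !![true, false, false, true, false, false, false, true;
     true, true, false, true, false, false, false, true;
     false, true, true, true, false, false, false, false;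
     false, false, true, true, false, false, false, false;
     true, true, true, true, false, false, false, false;
     false, false, false, false, true, false, false, false;
     false, false, false, false, false, true, false, false;
     false, false, false, false, false, false, true, false]

open Filter

lemma lin (a b : ℝ) (ha : a ≠ 0) : ∀ᶠ x : ℝ in atTop, a * x + b ≠ 0 := by
  filter_upwards [eventually_ne_atTop (-b / a)] with x hx h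
  apply hx
  field_simp
  linarith

lemma mon (P : ℝ[X]) (h : P ≠ 0) : ∀ᶠ x : ℝ in atTop, P.eval x ≠ 0 :=
  eventually_atTop_not_isRoot P h

lemma mon2 (a b : ℝ) : ∀ᶠ x : ℝ in atTop, x ^ 2 + a * x + b ≠ 0 := by
  have : (X ^ 2 + C a * X + C b : ℝ[X]).Monic := by monicity!
  simpa using mon _ this.ne_zero

lemma mon3 (a b c : ℝ) : ∀ᶠ x : ℝ in atTop, x ^ 3 + a * x ^ 2 + b * x + c ≠ 0 := by
  have : (X ^ 3 + C a * X ^ 2 + C b * X + C c : ℝ[X]).Monic := by monicity!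
  simpa using mon _ this.ne_zero

lemma mon4 (a b c d : ℝ) :
    ∀ᶠ x : ℝ in atTop, x ^ 4 + a * x ^ 3 + b * x ^ 2 + c * x + d ≠ 0 := by
  have : (X ^ 4 + C a * X ^ 3 + C b * X ^ 2 + C c * X + C d : ℝ[X]).Monic := by monicity!
  simpa using mon _ this.ne_zero

lemma cub (a b c d : ℝ) (h : ¬ (a = 0 ∧ b = 0 ∧ c = 0 ∧ d = 0)) :
    ∀ᶠ x : ℝ in atTop, a * x ^ 3 + b * x ^ 2 + c * x + d ≠ 0 := by
  have : (C a * X ^ 3 + C b * X ^ 2 + C c * X + C d : ℝ[X]) ≠ 0 := by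
    intro e
    apply h
    have e3 := congrArg (fun p => coeff p 3) e
    have e2 := congrArg (fun p => coeff p 2) e
    have e1 := congrArg (fun p => coeff p 1) e
    have e0 := congrArg (fun p => coeff p 0) e
    simp [coeff_X, coeff_C] at e3 e2 e1 e0
    exact ⟨e3, e2, e1, e0⟩
  simpa using mon _ this

lemma poly_eq (p q : ℝ[X]) (h : ∀ x : ℝ, x ≠ 0 → p.eval x = q.eval x) : p = q :=
  eq_of_infinite_eval_eq p q
    (((Set.finite_singleton (0 : ℝ)).infinite_compl).mono fun x hx => h x hx)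

lemma real4 (c1 c0 r1 r0 μ v : ℝ) (hv : v ≠ 0)
    (h : r1 * μ + r0 + v * (μ ^ 2 + c1 * μ + c0) = 0) :
    ∃ A : Matrix (Fin 4) (Fin 4) ℝ, Realizes P4 A ∧
      ∀ x, A.charpoly.eval x = x ^ 2 * (x ^ 2 + c1 * x + c0) - (r1 * x + r0) := by
  obtain ⟨δ, ⟨⟨⟨⟨h1, h2⟩, h3⟩, h4⟩, h5⟩⟩ := (((((lin 1 0 one_ne_zero).and
    (lin 1 (-μ) one_ne_zero)).and (mon2 c1 c0)).and (lin 1 c1 one_ne_zero)).and
    (lin (-v) (r1 + v * μ) (neg_ne_zero.2 hv))).exists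
  refine ⟨M4 δ (-(δ ^ 2 + c1 * δ + c0)) 1 (-(1 * δ + c1)) (1 * δ + -μ) 1 v
    (-v * δ + (r1 + v * μ)) 1, ?_, fun x => ?_⟩
  · have h1' : δ ≠ 0 := by simpa using h1
    generalize (δ ^ 2 + c1 * δ + c0) = a at *
    generalize (1 * δ + c1) = b at *
    generalize (1 * δ + -μ) = c at *
    generalize (-v * δ + (r1 + v * μ)) = d at *
    intro i j
    fin_cases i <;> fin_cases j <;> simp [M4, P4, *]
  · rw [eval4]
    linear_combination h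

lemma real8 (c3 c2 c1 c0 r3 r2 r1 r0 μ v : ℝ) (hv : v ≠ 0)
    (h : r3 * μ ^ 3 + r2 * μ ^ 2 + r1 * μ + r0 +
      v * (μ ^ 4 + c3 * μ ^ 3 + c2 * μ ^ 2 + c1 * μ + c0) = 0) :
    ∃ A : Matrix (Fin 8) (Fin 8) ℝ, Realizes P8 A ∧
      ∀ x, x ≠ 0 → A.charpoly.eval x =
        x ^ 4 * (x ^ 4 + c3 * x ^ 3 + c2 * x ^ 2 + c1 * x + c0) -
          (r3 * x ^ 3 + r2 * x ^ 2 + r1 * x + r0) := by
  obtain ⟨δ, ⟨⟨h1, h2⟩, h3⟩, h4⟩ := ((((eventually_ne_atTop (0 : ℝ)).and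
    (lin 1 (-μ) one_ne_zero)).and (mon4 c3 c2 c1 c0)).and
    (lin (-v) (r3 + v * μ) (neg_ne_zero.2 hv))).exists
  obtain ⟨t, ht⟩ : ∃ t, t = 1 * δ + -μ := ⟨_, rfl⟩
  obtain ⟨g2, hg2⟩ : ∃ g, g = δ ^ 4 + c3 * δ ^ 3 + c2 * δ ^ 2 + c1 * δ + c0 := ⟨_, rfl⟩
  obtain ⟨s2, hs2⟩ : ∃ g, g = -v * δ + (r3 + v * μ) := ⟨_, rfl⟩
  rw [← ht] at h2
  rw [← hg2] at h3
  rw [← hs2] at h4
  obtain ⟨a2, ha2⟩ : ∃ g, g = c3 + δ := ⟨_, rfl⟩
  obtain ⟨a1, ha1⟩ : ∃ g, g = c2 + δ * a2 := ⟨_, rfl⟩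
  obtain ⟨a0, ha0⟩ : ∃ g, g = c1 + δ * a1 := ⟨_, rfl⟩
  obtain ⟨s1, hs1⟩ : ∃ g, g = r2 - v * t * a2 + μ * s2 := ⟨_, rfl⟩
  obtain ⟨s0, hs0⟩ : ∃ g, g = r1 - v * t * a1 + μ * s1 := ⟨_, rfl⟩
  obtain ⟨α, ⟨h5, h6⟩, h7⟩ := (((eventually_ne_atTop (0 : ℝ)).and (mon3 a2 a1 a0)).and
    (lin (-s2) (s1 - s2 * a2) (neg_ne_zero.2 h4))).exists
  obtain ⟨g1, hg1⟩ : ∃ g, g = α ^ 3 + a2 * α ^ 2 + a1 * α + a0 := ⟨_, rfl⟩
  obtain ⟨v3, hv3⟩ : ∃ g, g = -s2 * α + (s1 - s2 * a2) := ⟨_, rfl⟩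
  rw [← hg1] at h6
  rw [← hv3] at h7
  obtain ⟨k1, hk1⟩ : ∃ g, g = a2 + α := ⟨_, rfl⟩
  obtain ⟨k0, hk0⟩ : ∃ g, g = a1 + α * k1 := ⟨_, rfl⟩
  obtain ⟨β, ⟨⟨h8, h9⟩, h10⟩, h11⟩ := ((((eventually_ne_atTop (0 : ℝ)).and
    (lin 1 k1 one_ne_zero)).and (mon2 k1 k0)).and
    (lin (-v3) (s0 - s2 * k0 - v3 * k1) (neg_ne_zero.2 h7))).exists
  obtain ⟨g4, hg4⟩ : ∃ g, g = 1 * β + k1 := ⟨_, rfl⟩
  obtain ⟨g3, hg3⟩ : ∃ g, g = β ^ 2 + k1 * β + k0 := ⟨_, rfl⟩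
  obtain ⟨v4, hv4⟩ : ∃ g, g = -v3 * β + (s0 - s2 * k0 - v3 * k1) := ⟨_, rfl⟩
  rw [← hg4] at h9
  rw [← hg3] at h10
  rw [← hv4] at h11
  refine ⟨M8 δ (-g2) t 1 α (-g1) 1 1 β (-g3) 1 (-g4) v s2 v3 v4 1 1 1, ?_, fun x hx => ?_⟩
  · clear ht hg2 hs2 ha2 ha1 ha0 hs1 hs0 hg1 hv3 hk1 hk0 hg4 hg3 hv4 h
    intro i j
    fin_cases i <;> fin_cases j <;> simp [M8, P8, *]
  · rw [eval8 _ _ _ _ _ _ _ _ _ _ _ _ _ _ _ _ _ _ _ _ hx]
    simp only [chi, rr, hh]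
    subst hv4 hg3 hg4 hk0 hk1 hv3 hg1 hs0 hs1 ha0 ha1 ha2 hs2 hg2 ht
    linear_combination h

lemma ev {p : ℝ[X]} {n : ℕ} (hp : IsMonicOfDegree p n) (x : ℝ) :
    p.eval x = x ^ n + ∑ i ∈ Finset.range n, p.coeff i * x ^ i := by
  rw [eval_eq_sum_range, hp.natDegree_eq, Finset.sum_range_succ, add_comm]
  have : p.coeff n = 1 := by rw [← hp.natDegree_eq]; exact hp.monic
  rw [this, one_mul]

lemma A4 {p : ℝ[X]} (hp : IsMonicOfDegree p 4) (h : ¬ X ^ 2 ∣ p) :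
    ∃ A, Realizes P4 A ∧ A.charpoly = p := by
  have h' : ¬ ((0 : ℝ) = 0 ∧ (0 : ℝ) = 0 ∧ p.coeff 1 = 0 ∧ p.coeff 0 = 0) := by
    rintro ⟨-, -, a, b⟩
    refine h (X_pow_dvd_iff.2 fun d hd => ?_)
    interval_cases d <;> assumption
  obtain ⟨μ, h1, h2⟩ := ((cub _ _ _ _ h').and (mon2 (p.coeff 3) (p.coeff 2))).exists
  obtain ⟨A, hA, e⟩ := real4 (p.coeff 3) (p.coeff 2) (-p.coeff 1) (-p.coeff 0) μ
    (_ / _) (div_ne_zero h1 h2) (by rw [div_mul_cancel₀ _ h2]; ring)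
  refine ⟨A, hA, Polynomial.funext fun x => ?_⟩
  rw [e, ev hp]
  simp [Finset.sum_range_succ]
  ring

lemma B4 {s : ℝ[X]} (hs : IsMonicOfDegree s 2) (μ : ℝ) (h : s.eval μ = 0) :
    ∃ A, Realizes P4 A ∧ A.charpoly = X ^ 2 * s := by
  obtain ⟨A, hA, e⟩ := real4 (s.coeff 1) (s.coeff 0) 0 0 μ 1 one_ne_zero (by
    rw [ev hs] at h
    simp [Finset.sum_range_succ] at h
    linear_combination h)
  refine ⟨A, hA, Polynomial.funext fun x => ?_⟩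
  rw [e, eval_mul, ev hs]
  simp [Finset.sum_range_succ]
  left
  ring

lemma A8 {p : ℝ[X]} (hp : IsMonicOfDegree p 8) (h : ¬ X ^ 4 ∣ p) :
    ∃ A, Realizes P8 A ∧ A.charpoly = p := by
  have h' : ¬ (p.coeff 3 = 0 ∧ p.coeff 2 = 0 ∧ p.coeff 1 = 0 ∧ p.coeff 0 = 0) := by
    rintro ⟨a, b, c, d⟩
    refine h (X_pow_dvd_iff.2 fun d hd => ?_)
    interval_cases d <;> assumption
  obtain ⟨μ, h1, h2⟩ := ((cub _ _ _ _ h').and
    (mon4 (p.coeff 7) (p.coeff 6) (p.coeff 5) (p.coeff 4))).exists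
  obtain ⟨A, hA, e⟩ := real8 (p.coeff 7) (p.coeff 6) (p.coeff 5) (p.coeff 4)
    (-p.coeff 3) (-p.coeff 2) (-p.coeff 1) (-p.coeff 0) μ
    (_ / _) (div_ne_zero h1 h2) (by rw [div_mul_cancel₀ _ h2]; ring)
  refine ⟨A, hA, poly_eq _ _ fun x hx => ?_⟩
  rw [e x hx, ev hp]
  simp [Finset.sum_range_succ]
  ring

lemma B8 {s : ℝ[X]} (hs : IsMonicOfDegree s 4) (μ : ℝ) (h : s.eval μ = 0) :
    ∃ A, Realizes P8 A ∧ A.charpoly = X ^ 4 * s := by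
  obtain ⟨A, hA, e⟩ := real8 (s.coeff 3) (s.coeff 2) (s.coeff 1) (s.coeff 0) 0 0 0 0 μ 1
    one_ne_zero (by
    rw [ev hs] at h
    simp [Finset.sum_range_succ] at h
    linear_combination h)
  refine ⟨A, hA, poly_eq _ _ fun x hx => ?_⟩
  rw [e x hx, eval_mul, ev hs]
  simp [Finset.sum_range_succ]
  left
  ring

lemma glue {m n : ℕ} {P : Matrix (Fin m) (Fin m) Bool} {Q : Matrix (Fin n) (Fin n) Bool}
    {p q : ℝ[X]} (h1 : ∃ A, Realizes P A ∧ A.charpoly = p)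
    (h2 : ∃ A, Realizes Q A ∧ A.charpoly = q) :
    ∃ A, Realizes (dsum P Q) A ∧ A.charpoly = p * q := by
  obtain ⟨A, hA, rfl⟩ := h1
  obtain ⟨B, hB, rfl⟩ := h2
  refine ⟨Matrix.reindex finSumFinEquiv finSumFinEquiv (Matrix.fromBlocks A 0 0 B), ?_, ?_⟩
  · intro i j
    simp only [dsum, Matrix.reindex_apply, Matrix.submatrix_apply]
    rcases finSumFinEquiv.symm i with a | a <;> rcases finSumFinEquiv.symm j with b | b
    · exact hA a b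
    · simp [Matrix.fromBlocks]
    · simp [Matrix.fromBlocks]
    · exact hB a b
  · rw [Matrix.charpoly_reindex, Matrix.charpoly_fromBlocks_zero₁₂]

lemma quart {p : ℝ[X]} {n : ℕ} (hp : IsMonicOfDegree p (n + 4)) :
    ∃ f g : ℝ[X], IsMonicOfDegree f 4 ∧ IsMonicOfDegree g n ∧ p = f * g := by
  obtain ⟨a, b, ha, hb, rfl⟩ :=
    IsMonicOfDegree.eq_isMonicOfDegree_two_mul_isMonicOfDegree (n := n + 2) hp
  obtain ⟨c, d, hc, hd, rfl⟩ := hb.eq_isMonicOfDegree_two_mul_isMonicOfDegree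
  exact ⟨a * c, d, ha.mul hc, hd, (mul_assoc _ _ _).symm⟩

lemma sap : SAP (dsum P4 P8) := by
  intro p hm hd
  have hp : IsMonicOfDegree p 12 := ⟨hd, hm⟩
  have x2 : IsMonicOfDegree (X ^ 2 : ℝ[X]) 2 := isMonicOfDegree_X_pow ℝ 2
  have x4 : IsMonicOfDegree (X ^ 4 : ℝ[X]) 4 := isMonicOfDegree_X_pow ℝ 4
  have b4 : ∃ A, Realizes P4 A ∧ A.charpoly = X ^ 4 := by
    rw [show (X ^ 4 : ℝ[X]) = X ^ 2 * X ^ 2 by ring]
    exact B4 x2 0 (by simp)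
  by_cases h4 : X ^ 4 ∣ p
  · obtain ⟨q, rfl⟩ := h4
    have hq : IsMonicOfDegree q 8 := x4.of_mul_left hp
    by_cases h8 : X ^ 4 ∣ q
    · obtain ⟨s, rfl⟩ := h8
      have hs : IsMonicOfDegree s 4 := x4.of_mul_left hq
      by_cases h10 : X ^ 2 ∣ s
      · refine glue b4 (B8 hs 0 ?_)
        obtain ⟨w, rfl⟩ := h10
        simp
      · rw [show X ^ 4 * (X ^ 4 * s) = s * (X ^ 4 * X ^ 4) by ring]
        exact glue (A4 hs h10) (B8 x4 0 (by simp))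
    · exact glue b4 (A8 hq h8)
  · by_cases h2 : X ^ 2 ∣ p
    · obtain ⟨q, rfl⟩ := h2
      have hq : IsMonicOfDegree q (6 + 4) := x2.of_mul_left hp
      obtain ⟨f, g, hf, hg, rfl⟩ := quart hq
      rw [show X ^ 2 * (f * g) = f * (X ^ 2 * g) by ring] at h4 ⊢
      refine glue (A4 hf ?_) (A8 (x2.mul hg) fun h => h4 (h.mul_left f))
      rintro ⟨w, rfl⟩
      exact h4 ⟨w * g, by ring⟩
    · obtain ⟨f, g, hf, hg, rfl⟩ := quart (n := 8) hp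
      exact glue (A4 hf fun h => h2 (h.mul_right g)) (A8 hg fun h => h4 (h.mul_left f))

lemma not4 : ¬ SAP P4 := by
  intro h
  obtain ⟨A, hA, e⟩ := h (X ^ 2 * (X ^ 2 + 1)) (by monicity!) (by compute_degree!)
  have z : ∀ i j, P4 i j = false → A i j = 0 := fun i j hh => by
    by_contra h0
    rw [(hA i j).1 h0] at hh
    exact absurd hh (by simp)
  have eA : A = M4 (A 0 0) (A 0 1) (A 1 0) (A 1 1) (A 0 3) (A 1 3) (A 2 0) (A 2 1) (A 3 2) := by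
    ext i j
    fin_cases i <;> fin_cases j <;> first | rfl | exact z _ _ rfl
  have n1 : A 1 0 ≠ 0 := (hA _ _).2 rfl
  have n2 : A 1 3 ≠ 0 := (hA _ _).2 rfl
  have n3 : A 2 0 ≠ 0 := (hA _ _).2 rfl
  have n4 : A 3 2 ≠ 0 := (hA _ _).2 rfl
  have k : ∀ x, (M4 (A 0 0) (A 0 1) (A 1 0) (A 1 1) (A 0 3) (A 1 3) (A 2 0) (A 2 1)
      (A 3 2)).charpoly.eval x = x ^ 2 * (x ^ 2 + 1) := fun x => by
    rw [← eA, e]; simp
  simp only [eval4] at k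
  generalize A 0 0 = a at *
  generalize A 0 1 = b at *
  generalize A 1 0 = c at *
  generalize A 1 1 = d at *
  generalize A 0 3 = w1 at *
  generalize A 1 3 = w2 at *
  generalize A 2 0 = v1 at *
  generalize A 2 1 = v2 at *
  generalize A 3 2 = s at *
  have k0 := k 0
  have k1 := k 1
  have k2 := k (-1)
  have k3 := k 2
  have e1 : a + d = 0 := by linarith
  have e2 : a * d - b * c = 1 := by linarith
  have e3 : s * (v1 * w1 + v2 * w2) = 0 := by linarith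
  have e4 : s * (v1 * (-(w1 * d) + b * w2) + v2 * (c * w1 - w2 * a)) = 0 := by linarith
  have e5 : s * v1 * ((a * w2 - c * w1) ^ 2 + w2 ^ 2) = 0 := by
    linear_combination (-(c * w2)) * e4 - (c * (a * w2 - c * w1)) * e3 +
      (s * v1 * (a * w2 - c * w1) * w2) * e1 - (s * v1 * w2 ^ 2) * e2
  have : 0 < (a * w2 - c * w1) ^ 2 + w2 ^ 2 := by positivity
  exact absurd e5 (mul_ne_zero (mul_ne_zero n4 n3) this.ne')

lemma co (a3 a2 a1 a0 b3 b2 b1 b0 : ℝ)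
    (h : ∀ x : ℝ, x ≠ 0 → x ^ 4 * (a3 * x ^ 3 + a2 * x ^ 2 + a1 * x + a0) =
      b3 * x ^ 3 + b2 * x ^ 2 + b1 * x + b0) (x : ℝ) :
    a3 * x ^ 3 + a2 * x ^ 2 + a1 * x + a0 = 0 ∧ b3 * x ^ 3 + b2 * x ^ 2 + b1 * x + b0 = 0 := by
  have h1 := h 1 (by norm_num)
  have h2 := h (-1) (by norm_num)
  have h3 := h 2 (by norm_num)
  have h4 := h (-2) (by norm_num)
  have h5 := h 3 (by norm_num)
  have h6 := h (-3) (by norm_num)
  have h7 := h 4 (by norm_num)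
  have h8 := h (-4) (by norm_num)
  have e1 : a3 = 0 := by linarith
  have e2 : a2 = 0 := by linarith
  have e3 : a1 = 0 := by linarith
  have e4 : a0 = 0 := by linarith
  have e5 : b3 = 0 := by linarith
  have e6 : b2 = 0 := by linarith
  have e7 : b1 = 0 := by linarith
  have e8 : b0 = 0 := by linarith
  simp [e1, e2, e3, e4, e5, e6, e7, e8]

lemma not8' (δ g2 t s1 α g1 u s2 β g3 s3 g4 vg v1 v3 v4 k : ℝ) (_hs : s1 ≠ 0) (hu : u ≠ 0)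
    (hv : vg ≠ 0) (hk : k ≠ 0)
    (h : ∀ x : ℝ, x ≠ 0 → x ^ 4 * chi δ g2 s1 α g1 s2 β g3 s3 g4 x -
      k * rr δ g2 t s1 α g1 u s2 β g3 s3 g4 vg v1 v3 v4 x = x ^ 4 * (x ^ 2 + 1) ^ 2) : False := by
  let b1 := -(β + g4)
  let b0 := β * g4 - s3 * g3
  let a2 := b1 - α
  let a1 := b0 - α * b1
  let a0 := -(α * b0) - s2 * s3 * g1
  let m1 := v1 * b1 + s2 * v3
  let m0 := v1 * b0 - s2 * v3 * g4 + s2 * s3 * v4
  let n0 := s1 * t - u * δ
  have c1 : ∀ x, chi δ g2 s1 α g1 s2 β g3 s3 g4 x - (x ^ 2 + 1) ^ 2 =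
      (a2 - δ) * x ^ 3 + (a1 - δ * a2 - 2) * x ^ 2 + (a0 - δ * a1) * x +
        (-(δ * a0) - s1 * s2 * s3 * g2 - 1) := by
    intro x
    simp only [chi, hh, a2, a1, a0, b1, b0]
    ring
  have c2 : ∀ x, k * rr δ g2 t s1 α g1 u s2 β g3 s3 g4 vg v1 v3 v4 x =
      (k * (vg * t + u * v1)) * x ^ 3 + (k * (vg * t * a2 + u * m1 + n0 * v1)) * x ^ 2 +
        (k * (vg * t * a1 + u * m0 + n0 * m1)) * x +
        k * (vg * (t * a0 + u * s2 * s3 * g2) + n0 * m0) := by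
    intro x
    simp only [rr, hh, a2, a1, a0, b1, b0, m1, m0, n0]
    ring
  have c3 := co _ _ _ _ _ _ _ _ (fun x hx => (congrArg (x ^ 4 * ·) (c1 x).symm).trans
    (Eq.trans (by linear_combination h x hx) (c2 x))) (δ - s1 * t / u)
  rw [← c1, ← c2] at c3
  have c4 : s1 * rr δ g2 t s1 α g1 u s2 β g3 s3 g4 vg v1 v3 v4 (δ - s1 * t / u) =
      -(vg * u) * chi δ g2 s1 α g1 s2 β g3 s3 g4 (δ - s1 * t / u) := by
    simp only [rr, chi]
    generalize hh α g1 s2 β g3 s3 g4 (δ - s1 * t / u) = H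
    field_simp
    ring
  have c5 := (mul_eq_zero.1 c3.2).resolve_left hk
  rw [c5, sub_eq_zero.1 c3.1, mul_zero] at c4
  have : 0 < ((δ - s1 * t / u) ^ 2 + 1) ^ 2 := by positivity
  exact absurd c4.symm (mul_ne_zero (neg_ne_zero.2 (mul_ne_zero hv hu)) this.ne')

lemma not8 : ¬ SAP P8 := by
  intro h
  obtain ⟨A, hA, e⟩ := h (X ^ 4 * (X ^ 2 + 1) ^ 2) (by monicity!) (by compute_degree!)
  have z : ∀ i j, P8 i j = false → A i j = 0 := fun i j hh => by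
    by_contra h0
    rw [(hA i j).1 h0] at hh
    exact absurd hh (by simp)
  have eA : A = M8 (A 0 0) (A 0 3) (A 0 7) (A 1 0) (A 1 1) (A 1 3) (A 1 7) (A 2 1) (A 2 2)
      (A 2 3) (A 3 2) (A 3 3) (A 4 0) (A 4 1) (A 4 2) (A 4 3) (A 5 4) (A 6 5) (A 7 6) := by
    ext i j
    fin_cases i <;> fin_cases j <;> first | rfl | exact z _ _ rfl
  refine not8' (A 0 0) (A 0 3) (A 0 7) (A 1 0) (A 1 1) (A 1 3) (A 1 7) (A 2 1) (A 2 2)
      (A 2 3) (A 3 2) (A 3 3) (A 4 0) (A 4 1) (A 4 2) (A 4 3) (A 5 4 * A 6 5 * A 7 6)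
      ((hA _ _).2 rfl) ((hA _ _).2 rfl) ((hA _ _).2 rfl)
      (mul_ne_zero (mul_ne_zero ((hA _ _).2 rfl) ((hA _ _).2 rfl)) ((hA _ _).2 rfl))
      fun x hx => ?_
  rw [← eval8 _ _ _ _ _ _ _ _ _ _ _ _ _ _ _ _ _ _ _ _ hx, ← eA, e]
  simp

theorem result :
    (SAP (dsum P4 P8) ∧ ¬ SAP P4 ∧ ¬ SAP P8) ∧
    ∃ (m n : ℕ) (P : Matrix (Fin m) (Fin m) Bool) (Q : Matrix (Fin n) (Fin n) Bool),
      SAP (dsum P Q) ∧ ¬ SAP P ∧ ¬ SAP Q :=
  ⟨⟨sap, not4, not8⟩, 4, 8, P4, P8, sap, not4, not8⟩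

end Pool.Agent.Results.MP_1020fe_co.Exists
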